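import Mathlib
import Pool.Agent.MP_7f4e92_pr.Main

set_option autoImplicit false

open Filter MeasureTheory Pool.Agent.MP_7f4e92_pr
open scoped Topology

namespace Pool.Agent.Results.MP_7f4e92_pr.LocalLimit

/-- If `n * p n → 1`, the largest component of `G(n, p n)`, rooted at a uniform vertex, converges
locally to the Poisson(1) Galton-Watson tree conditioned to be infinite. -/
theorem result (p : ℕ → unitInterval)
    (hp : Tendsto (fun n : ℕ => (n : ℝ) * (p n : ℝ)) atTop (𝓝 1))
    (C : ∀ n : ℕ, SimpleGraph (Fin n) → Set (Fin n))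
    (hC : ∀ n, 0 < n → ∀ G, IsLargestComponent G (C n G))
    (r : ℕ) (W : Type) [Finite W] (F : SimpleGraph W) (u : W) :
    Tendsto (fun n : ℕ => ∫ G, ballFraction G (C n G) r F u
        ∂(SimpleGraph.binomialRandom (Fin n) (p n))) atTop
      (𝓝 (offspringLaw.real {ξ | BallIso (rayTree ξ) (0, []) r F u})) :=
  local_limit p hp C hC r F u

end Pool.Agent.Results.MP_7f4e92_pr.LocalLimit
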